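import Pool.Agent.Helper35.TD.Comm

/-! Project TD (MP_8abef2_ag): from exponents prime to the characteristic to all exponents.

`n = p^m n'`, `q = p^m`. Let `K'` be the field `K` with the constants embedded by `a ↦ a^q`. Then
`ψ : k ↦ k^q` is a homomorphism `K → K'` over `Ω`, and its range is contained in
`K1 = Ω(x, y, w^q) ⊆ K'`. The degree of `K1` over `Ω(x, y)` is `n'`, and
`(w^q)^n' = f^(1/q) (x, y)` for the embedding of the constants in `K'`. The Galois action is the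
same. `K1` is algebraic over the range of `ψ`. -/

set_option autoImplicit false

namespace Pool.Agent.Helper15.TD

open IntermediateField Pool.Agent.Helper35.TD

private theorem deg_le15 {Ω M : Type} [Field Ω] [Field M] [Algebra Ω M] (F : IntermediateField Ω M)
    (z : M) {d : ℕ} (hd : 0 < d) (hz : z ^ d ∈ F)
    (htop : ∀ N : IntermediateField Ω M, F ≤ N → z ∈ N → N = ⊤) : Module.finrank F M ≤ d := by
  have hint : IsIntegral F z := by
    refine IsIntegral.of_pow hd ?_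
    exact isIntegral_algebraMap (x := (⟨z ^ d, hz⟩ : F))
  have h1 : IntermediateField.adjoin F {z} = ⊤ := by
    apply IntermediateField.restrictScalars_injective Ω
    rw [restrictScalars_top]
    refine htop _ ?_ ?_
    · intro a ha
      exact (adjoin F {z}).algebraMap_mem ⟨a, ha⟩
    · exact mem_adjoin_simple_self F z
  have h0 : Module.finrank F (IntermediateField.adjoin F {z}) = Module.finrank F M := by
    rw [h1, IntermediateField.finrank_top']
  rw [← h0, adjoin.finrank hint]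
  have h2 : minpoly F z ∣ Polynomial.X ^ d - Polynomial.C (⟨z ^ d, hz⟩ : F) := by
    refine minpoly.dvd _ _ ?_
    rw [map_sub, map_pow, Polynomial.aeval_X, Polynomial.aeval_C]
    exact sub_self _
  have h3 := Polynomial.natDegree_le_of_dvd h2 (Polynomial.X_pow_sub_C_ne_zero hd _)
  rwa [Polynomial.natDegree_X_pow_sub_C] at h3

/-- the subfield generated by `x`, `y`, `w^q` -/
theorem reduce {Ω K : Type} [Field Ω] [Field K] [Algebra Ω K] {q n' : ℕ} (hq : 0 < q)
    (hn' : 0 < n') (x y w : K) (hK : adjoin Ω {x, y, w} = ⊤)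
    (hw : w ^ (q * n') ∈ adjoin Ω {x, y})
    (hdeg : Module.finrank (adjoin Ω {x, y}) K = q * n') (K1 : IntermediateField Ω K)
    (hK1 : K1 = adjoin Ω {x, y, w ^ q}) (hx : x ∈ K1) (hy : y ∈ K1) (hw1 : w ^ q ∈ K1) :
    adjoin Ω {(⟨x, hx⟩ : K1), ⟨y, hy⟩, ⟨w ^ q, hw1⟩} = ⊤ ∧
      Module.finrank (adjoin Ω {(⟨x, hx⟩ : K1), ⟨y, hy⟩}) K1 = n' := by
  have htop1 : adjoin Ω {(⟨x, hx⟩ : K1), ⟨y, hy⟩, ⟨w ^ q, hw1⟩} = ⊤ := by
    apply lift_injective K1
    rw [lift_top, lift_adjoin]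
    simp only [Set.image_insert_eq, Set.image_singleton]
    exact hK1.symm
  refine ⟨htop1, ?_⟩
  obtain ⟨F1, hF1⟩ : ∃ F1 : IntermediateField Ω K1, F1 = adjoin Ω {(⟨x, hx⟩ : K1), ⟨y, hy⟩} := ⟨_, rfl⟩
  have hlift : lift F1 = adjoin Ω {x, y} := by
    rw [hF1, lift_adjoin]
    simp only [Set.image_insert_eq, Set.image_singleton]
  have h5 : Module.finrank F1 K = Module.finrank (lift F1) K :=
    Algebra.finrank_eq_of_equiv_equiv (liftAlgEquiv F1).toRingEquiv (RingEquiv.refl K) (by ext a; rfl)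
  rw [hlift, hdeg] at h5
  have h6 : Module.finrank F1 K1 * Module.finrank K1 K = Module.finrank F1 K :=
    Module.finrank_mul_finrank F1 K1 K
  have h7 : Module.finrank F1 K1 ≤ n' := by
    refine deg_le15 F1 ⟨w ^ q, hw1⟩ hn' ?_ ?_
    · have h1 : (((⟨w ^ q, hw1⟩ : K1) ^ n' : K1) : K) ∈ lift F1 := by
        rw [hlift]
        show (w ^ q) ^ n' ∈ _
        rw [← pow_mul]
        exact hw
      rw [lift, mem_map] at h1
      obtain ⟨a, ha, hab⟩ := h1
      have h2 : a = (⟨w ^ q, hw1⟩ : K1) ^ n' := Subtype.ext hab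
      rw [← h2]
      exact ha
    · intro N hN hz
      rw [← top_le_iff, ← htop1, adjoin_le_iff]
      intro a ha
      simp only [Set.mem_insert_iff, Set.mem_singleton_iff] at ha
      have hF : ∀ a ∈ ({(⟨x, hx⟩ : K1), ⟨y, hy⟩} : Set K1), a ∈ N := by
        intro a ha
        apply hN
        rw [hF1]
        exact subset_adjoin _ _ ha
      rcases ha with ha | ha | ha
      · exact hF a (by simp [ha])
      · exact hF a (by simp [ha])
      · rw [ha]
        exact hz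
  have h8 : Module.finrank K1 K ≤ q := by
    refine deg_le15 K1 w hq hw1 ?_
    intro N hN hz
    rw [← top_le_iff, ← hK, adjoin_le_iff]
    intro a ha
    simp only [Set.mem_insert_iff, Set.mem_singleton_iff] at ha
    rcases ha with ha | ha | ha
    · rw [ha]
      exact hN hx
    · rw [ha]
      exact hN hy
    · rw [ha]
      exact hz
  rw [← hF1]
  by_contra hne
  have hlt : Module.finrank F1 K1 < n' := lt_of_le_of_ne h7 hne
  have h10 : Module.finrank F1 K1 * Module.finrank K1 K ≤ Module.finrank F1 K1 * q :=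
    Nat.mul_le_mul_left _ h8
  have h11 : Module.finrank F1 K1 * q < n' * q :=
    Nat.mul_lt_mul_of_pos_right hlt hq
  have h12 : Module.finrank F1 K1 * Module.finrank K1 K = q * n' := by
    rw [h6, h5]
  rw [mul_comm q] at h12
  omega

/-- the field `K`, to be used with another embedding of the constants -/
def Tw (K : Type) : Type := K

noncomputable instance (K : Type) [h : Field K] : Field (Tw K) := h

/-- the embedding of the constants, composed with an automorphism -/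
@[reducible] noncomputable def twAlg {Ω K : Type} [Field Ω] [Field K] [Algebra Ω K]
    (φ : Ω ≃+* Ω) : Algebra Ω (Tw K) :=
  RingHom.toAlgebra ((algebraMap Ω K).comp (φ : Ω →+* Ω))

theorem tw_algebraMap {Ω K : Type} [Field Ω] [Field K] [Algebra Ω K] (φ : Ω ≃+* Ω) (a : Ω) :
    @algebraMap Ω (Tw K) _ _ (twAlg φ) a = algebraMap Ω K (φ a) := rfl

/-- the subfields do not change -/
theorem tw_mem {Ω K : Type} [Field Ω] [Field K] [Algebra Ω K] (φ : Ω ≃+* Ω) (S : Set K) (k : K) :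
    letI := twAlg (K := K) φ
    (k : Tw K) ∈ (adjoin Ω (S : Set (Tw K)) : IntermediateField Ω (Tw K)) ↔ k ∈ adjoin Ω S := by
  let _ := twAlg (K := K) φ
  have h1 : Set.range (algebraMap Ω (Tw K)) = Set.range (algebraMap Ω K) := by
    ext z
    constructor
    · rintro ⟨a, rfl⟩
      exact ⟨φ a, rfl⟩
    · rintro ⟨a, rfl⟩
      refine ⟨φ.symm a, ?_⟩
      show algebraMap Ω K (φ (φ.symm a)) = _
      rw [φ.apply_symm_apply]
  show k ∈ Subfield.closure (Set.range (algebraMap Ω (Tw K)) ∪ S) ↔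
    k ∈ Subfield.closure (Set.range (algebraMap Ω K) ∪ S)
  rw [h1]
  rfl

/-- the degree does not change -/
theorem tw_finrank {Ω K : Type} [Field Ω] [Field K] [Algebra Ω K] (φ : Ω ≃+* Ω) (S : Set K) :
    letI := twAlg (K := K) φ
    Module.finrank (adjoin Ω (S : Set (Tw K)) : IntermediateField Ω (Tw K)) (Tw K) =
      Module.finrank (adjoin Ω S) K := by
  let _ := twAlg (K := K) φ
  let e : (adjoin Ω (S : Set (Tw K)) : IntermediateField Ω (Tw K)) ≃+* adjoin Ω S :=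
    { toFun := fun k => ⟨(k : Tw K), (tw_mem φ S _).1 k.2⟩
      invFun := fun k => ⟨(k : K), (tw_mem φ S _).2 k.2⟩
      left_inv := fun _ => rfl
      right_inv := fun _ => rfl
      map_mul' := fun _ _ => rfl
      map_add' := fun _ _ => rfl }
  exact Algebra.finrank_eq_of_equiv_equiv e (RingEquiv.refl K) (by ext a; rfl)

/-- the statement for the exponents prime to the characteristic -/
def Tame {F Ω L : Type} [Field F] [Field Ω] [Algebra F Ω] [Field L] (T : GaloisTheory F Ω L) :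
    Prop :=
  ∀ (f : MvPolynomial (Fin 2) Ω), f.totalDegree ≤ 4 → ∀ n : ℕ, 0 < n → (n : Ω) ≠ 0 →
    ∀ (K : Type) [Field K] [Algebra Ω K] (x y w : K), adjoin Ω {x, y, w} = ⊤ →
    w ^ n = MvPolynomial.aeval ![x, y] f → Module.finrank (adjoin Ω {x, y}) K = n →
    ∀ (U : Subgroup (Ω ≃ₐ[F] Ω)), IsOpen (U : Set (Ω ≃ₐ[F] Ω)) →
    ∀ γ : (Ω ≃ₐ[F] Ω) → (K →+* K), (∀ τ ∈ U, IsOver (τ : Ω ≃+* Ω) (γ τ)) →
    (∀ τ ∈ U, γ τ x = x ∧ γ τ y = y ∧ γ τ w = w) →
    ∀ t : T.H 2 K, (∀ τ ∈ U, T.act 2 (γ τ) t = ((T.cyc τ)⁻¹ : Lˣ) • t) → t = 0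

theorem aeval_mem {Ω K : Type} [Field Ω] [Field K] [Algebra Ω K] (x y : K)
    (g : MvPolynomial (Fin 2) Ω) : MvPolynomial.aeval ![x, y] g ∈ adjoin Ω {x, y} := by
  induction g using MvPolynomial.induction_on with
  | C a =>
    rw [MvPolynomial.aeval_C]
    exact IntermediateField.algebraMap_mem _ _
  | add g h hg hh =>
    rw [map_add]
    exact add_mem hg hh
  | mul_X g i hg =>
    rw [map_mul, MvPolynomial.aeval_X]
    refine mul_mem hg (subset_adjoin _ _ ?_)
    fin_cases i <;> simp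

/-- from the exponents prime to the characteristic to all exponents -/
theorem all_of_tame {p : ℕ} [Fact p.Prime] {F Ω L : Type} [Field F] [Field Ω] [CharP Ω p]
    [IsAlgClosed Ω] [Algebra F Ω] [Field L] (T : GaloisTheory F Ω L) (htame : Tame T)
    (f : MvPolynomial (Fin 2) Ω) (hf : f.totalDegree ≤ 4) {n : ℕ} (hn : 0 < n) {K : Type}
    [Field K] [Algebra Ω K] (x y w : K) (hK : adjoin Ω {x, y, w} = ⊤)
    (hw : w ^ n = MvPolynomial.aeval ![x, y] f)
    (hdeg : Module.finrank (adjoin Ω {x, y}) K = n) (U : Subgroup (Ω ≃ₐ[F] Ω))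
    (hU : IsOpen (U : Set (Ω ≃ₐ[F] Ω))) (γ : (Ω ≃ₐ[F] Ω) → (K →+* K))
    (hγ : ∀ τ ∈ U, IsOver (τ : Ω ≃+* Ω) (γ τ))
    (hfix : ∀ τ ∈ U, γ τ x = x ∧ γ τ y = y ∧ γ τ w = w) (t : T.H 2 K)
    (ht : ∀ τ ∈ U, T.act 2 (γ τ) t = ((T.cyc τ)⁻¹ : Lˣ) • t) : t = 0 := by
  classical
  have hp : p.Prime := Fact.out
  obtain ⟨m, n', hpn, hnn⟩ := Nat.exists_eq_pow_mul_and_not_dvd hn.ne' p hp.ne_one
  have hn0 : 0 < n' := by
    rcases Nat.eq_zero_or_pos n' with h | h
    · subst h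
      exact absurd (dvd_zero p) hpn
    · exact h
  have hcast : (n' : Ω) ≠ 0 := by
    rw [Ne, CharP.cast_eq_zero_iff Ω p]
    exact hpn
  obtain ⟨q, hq⟩ : ∃ q, q = p ^ m := ⟨_, rfl⟩
  have hq0 : 0 < q := by rw [hq]; exact pow_pos hp.pos m
  rw [← hq] at hnn
  obtain ⟨φ, hφ⟩ : ∃ φ : Ω ≃+* Ω, ∀ a, φ a = a ^ q :=
    ⟨iterateFrobeniusEquiv Ω p m, fun a => by rw [iterateFrobeniusEquiv_def, hq]⟩
  have hKp : CharP K p := charP_of_injective_algebraMap (algebraMap Ω K).injective p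
  let al : Algebra Ω (Tw K) := twAlg φ
  have halg : ∀ a : Ω, algebraMap Ω (Tw K) a = algebraMap Ω K (φ a) := fun _ => rfl
  -- the homomorphism `k ↦ k ^ q`
  obtain ⟨ψ, hψ⟩ : ∃ ψ : K →ₐ[Ω] Tw K, ∀ k : K, ψ k = (k ^ q : K) :=
    ⟨{ (iterateFrobenius K p m : K →+* K) with
        commutes' := fun a => by
          show iterateFrobenius K p m (algebraMap Ω K a) = algebraMap Ω K (φ a)
          rw [iterateFrobenius_def, hφ, map_pow, hq] },
      fun k => by
        show iterateFrobenius K p m k = _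
        rw [iterateFrobenius_def, hq]⟩
  -- generators of the field with the other embedding of the constants
  obtain ⟨x', hx'⟩ : ∃ x' : Tw K, x' = x := ⟨x, rfl⟩
  obtain ⟨y', hy'⟩ : ∃ y' : Tw K, y' = y := ⟨y, rfl⟩
  obtain ⟨w', hw'⟩ : ∃ w' : Tw K, w' = w := ⟨w, rfl⟩
  have hK' : adjoin Ω {x', y', w'} = ⊤ := by
    rw [hx', hy', hw']
    refine le_antisymm le_top fun k _ => ?_
    refine (tw_mem φ {x, y, w} k).2 ?_
    rw [hK]
    exact mem_top
  have hdeg' : Module.finrank (adjoin Ω {x', y'}) (Tw K) = q * n' := by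
    rw [hx', hy', ← hnn, ← hdeg]
    exact tw_finrank φ {x, y}
  have hf' : (f.map (φ.symm : Ω →+* Ω)).totalDegree ≤ 4 := by
    refine le_trans ?_ hf
    rw [MvPolynomial.totalDegree, MvPolynomial.totalDegree]
    exact Finset.sup_mono (MvPolynomial.support_map_subset _ _)
  have hae : MvPolynomial.aeval ![x', y'] (f.map (φ.symm : Ω →+* Ω)) =
      MvPolynomial.aeval ![x, y] f := by
    rw [MvPolynomial.aeval_def, MvPolynomial.eval₂_map, MvPolynomial.aeval_def]
    have h1 : (algebraMap Ω (Tw K)).comp (φ.symm : Ω →+* Ω) = algebraMap Ω K := by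
      ext a
      exact congrArg (algebraMap Ω K) (φ.apply_symm_apply a)
    rw [h1, hx', hy']
    rfl
  have hwn' : w' ^ (q * n') = MvPolynomial.aeval ![x', y'] (f.map (φ.symm : Ω →+* Ω)) := by
    rw [hae, ← hw, hw', hnn]
    rfl
  obtain ⟨K1, hK1⟩ : ∃ K1 : IntermediateField Ω (Tw K), K1 = adjoin Ω {x', y', w' ^ q} := ⟨_, rfl⟩
  have hx : x' ∈ K1 := by
    rw [hK1]
    exact subset_adjoin _ _ (by simp)
  have hy : y' ∈ K1 := by
    rw [hK1]
    exact subset_adjoin _ _ (by simp)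
  have hw1 : w' ^ q ∈ K1 := by
    rw [hK1]
    exact subset_adjoin _ _ (by simp)
  obtain ⟨htop1, hdeg1⟩ := reduce hq0 hn0 x' y' w' hK'
    (by rw [hwn']; exact aeval_mem x' y' _) hdeg' K1 hK1 hx hy hw1
  have hw2 : (⟨w' ^ q, hw1⟩ : K1) ^ n' =
      MvPolynomial.aeval ![(⟨x', hx⟩ : K1), ⟨y', hy⟩] (f.map (φ.symm : Ω →+* Ω)) := by
    apply Subtype.ext
    have h1 : MvPolynomial.aeval ![x', y'] =
        K1.val.comp (MvPolynomial.aeval ![(⟨x', hx⟩ : K1), ⟨y', hy⟩]) := by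
      apply MvPolynomial.algHom_ext
      intro i
      rw [AlgHom.comp_apply, MvPolynomial.aeval_X, MvPolynomial.aeval_X]
      fin_cases i <;> rfl
    have h2 : K1.val (MvPolynomial.aeval ![(⟨x', hx⟩ : K1), ⟨y', hy⟩] (f.map (φ.symm : Ω →+* Ω))) =
        w' ^ (q * n') := by
      rw [hwn', h1]
      rfl
    show (w' ^ q) ^ n' = K1.val _
    rw [h2, pow_mul]
  -- the range of `ψ`
  have hψK : ∀ k : K, ψ k ∈ K1 := by
    intro k
    have h1 : (⊤ : IntermediateField Ω K) ≤ K1.comap ψ := by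
      rw [← hK, adjoin_le_iff]
      intro a ha
      simp only [Set.mem_insert_iff, Set.mem_singleton_iff] at ha
      show ψ a ∈ K1
      rcases ha with ha | ha | ha
      · rw [ha, hψ]
        have h2 : (x ^ q : K) = (x' ^ q : Tw K) := by rw [hx']; rfl
        rw [h2]
        exact pow_mem hx q
      · rw [ha, hψ]
        have h2 : (y ^ q : K) = (y' ^ q : Tw K) := by rw [hy']; rfl
        rw [h2]
        exact pow_mem hy q
      · rw [ha, hψ]
        have h2 : (w ^ q : K) = (w' ^ q : Tw K) := by rw [hw']; rfl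
        rw [h2]
        exact hw1
    exact h1 (mem_top (x := k))
  let ψ1 : K →ₐ[Ω] K1 :=
    { toFun := fun k => ⟨ψ k, hψK k⟩
      map_one' := Subtype.ext (map_one ψ)
      map_mul' := fun a b => Subtype.ext (map_mul ψ a b)
      map_zero' := Subtype.ext (map_zero ψ)
      map_add' := fun a b => Subtype.ext (map_add ψ a b)
      commutes' := fun r => Subtype.ext (ψ.commutes r) }
  -- the Galois action
  have hτφ : ∀ (τ : Ω ≃ₐ[F] Ω) (a : Ω), τ (φ a) = φ (τ a) := by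
    intro τ a
    rw [hφ, hφ, map_pow]
  obtain ⟨γ', hγ'⟩ : ∃ γ' : (Ω ≃ₐ[F] Ω) → (Tw K →+* Tw K), ∀ τ (k : K), γ' τ k = γ τ k :=
    ⟨fun τ => γ τ, fun _ _ => rfl⟩
  have hover : ∀ τ ∈ U, ∀ a : Ω, γ' τ (algebraMap Ω (Tw K) a) = algebraMap Ω (Tw K) (τ a) := by
    intro τ hτ a
    rw [halg, halg, hγ']
    have h1 := hγ τ hτ (φ a)
    rw [h1]
    exact congrArg (algebraMap Ω K) (hτφ τ a)
  have hfix' : ∀ τ ∈ U, γ' τ x' = x' ∧ γ' τ y' = y' ∧ γ' τ w' = w' := by
    intro τ hτ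
    rw [hx', hy', hw']
    obtain ⟨e1, e2, e3⟩ := hfix τ hτ
    exact ⟨(hγ' τ x).trans e1, (hγ' τ y).trans e2, (hγ' τ w).trans e3⟩
  have hstab : ∀ τ ∈ U, ∀ k ∈ K1, γ' τ k ∈ K1 := by
    intro τ hτ k hk
    let N : IntermediateField Ω (Tw K) :=
      { K1.toSubfield.comap (γ' τ) with
        algebraMap_mem' := fun a => by
          show γ' τ (algebraMap Ω (Tw K) a) ∈ K1
          rw [hover τ hτ]
          exact K1.algebraMap_mem _ }
    have h1 : K1 ≤ N := by
      conv_lhs => rw [hK1]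
      rw [adjoin_le_iff]
      intro a ha
      simp only [Set.mem_insert_iff, Set.mem_singleton_iff] at ha
      show γ' τ a ∈ K1
      obtain ⟨e1, e2, e3⟩ := hfix' τ hτ
      rcases ha with ha | ha | ha
      · rw [ha, e1]
        exact hx
      · rw [ha, e2]
        exact hy
      · rw [ha, map_pow, e3]
        exact hw1
    exact h1 hk
  let γ1 : (Ω ≃ₐ[F] Ω) → (K1 →+* K1) := fun τ =>
    if h : τ ∈ U then
      { toFun := fun k => ⟨γ' τ k, hstab τ h _ k.2⟩
        map_one' := Subtype.ext (map_one (γ' τ))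
        map_mul' := fun a b => Subtype.ext (map_mul (γ' τ) (a : Tw K) b)
        map_zero' := Subtype.ext (map_zero (γ' τ))
        map_add' := fun a b => Subtype.ext (map_add (γ' τ) (a : Tw K) b) }
    else RingHom.id K1
  have hγ1 : ∀ τ ∈ U, ∀ k : K1, (γ1 τ k : Tw K) = γ' τ k := by
    intro τ hτ k
    simp only [γ1, dif_pos hτ]
    rfl
  have hover1 : ∀ τ ∈ U, IsOver (τ : Ω ≃+* Ω) (γ1 τ) := by
    intro τ hτ a
    apply Subtype.ext
    rw [hγ1 τ hτ]
    exact hover τ hτ a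
  have hfix1 : ∀ τ ∈ U, γ1 τ ⟨x', hx⟩ = ⟨x', hx⟩ ∧ γ1 τ ⟨y', hy⟩ = ⟨y', hy⟩ ∧
      γ1 τ ⟨w' ^ q, hw1⟩ = ⟨w' ^ q, hw1⟩ := by
    intro τ hτ
    obtain ⟨e1, e2, e3⟩ := hfix' τ hτ
    refine ⟨?_, ?_, ?_⟩
    · apply Subtype.ext
      rw [hγ1 τ hτ]
      exact e1
    · apply Subtype.ext
      rw [hγ1 τ hτ]
      exact e2
    · apply Subtype.ext
      rw [hγ1 τ hτ]
      show γ' τ (w' ^ q) = w' ^ q
      rw [map_pow, e3]
  -- the class
  have ht1 : ∀ τ ∈ U, T.act 2 (γ1 τ) (T.map 2 ψ1 t) = ((T.cyc τ)⁻¹ : Lˣ) • T.map 2 ψ1 t := by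
    intro τ hτ
    have hid : IsOver (RingEquiv.refl Ω) (ψ1 : K →+* K1) := fun a => ψ1.commutes a
    have h1 : (γ1 τ).comp (ψ1 : K →+* K1) = (ψ1 : K →+* K1).comp (γ τ) := by
      refine RingHom.ext fun k => Subtype.ext ?_
      show (γ1 τ (ψ1 k) : Tw K) = ψ (γ τ k)
      rw [hγ1 τ hτ, hψ]
      show γ' τ (ψ k) = _
      rw [hψ, hγ', map_pow]
    have h2 := LinearMap.congr_fun (T.act_comp 2 (τ : Ω ≃+* Ω) (RingEquiv.refl Ω) (γ1 τ)
      (ψ1 : K →+* K1) (hover1 τ hτ) hid) t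
    have h3 := LinearMap.congr_fun (T.act_comp 2 (RingEquiv.refl Ω) (τ : Ω ≃+* Ω)
      (ψ1 : K →+* K1) (γ τ) hid (hγ τ hτ)) t
    rw [h1, h3, LinearMap.comp_apply, LinearMap.comp_apply, T.act_map, ht τ hτ, Units.smul_def,
      map_smul, ← Units.smul_def] at h2
    exact h2.symm
  have hzero := htame (f.map (φ.symm : Ω →+* Ω)) hf' n' hn0 hcast K1 ⟨x', hx⟩ ⟨y', hy⟩
    ⟨w' ^ q, hw1⟩ htop1 hw2 hdeg1 U hU γ1 hover1 hfix1 (T.map 2 ψ1 t) ht1
  have hinj : Function.Injective (T.map 2 ψ1) := by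
    refine T.inj 2 ψ1 fun a => ?_
    refine IsAlgebraic.of_pow (n := q) hq0 ?_
    obtain ⟨k, hk⟩ : ∃ k : K, k = (a : Tw K) := ⟨(a : Tw K), rfl⟩
    have h1 : a ^ q = ψ1 k := by
      apply Subtype.ext
      have h2 : ((a : Tw K)) ^ q = (k ^ q : K) := by
        rw [hk]
        rfl
      exact h2.trans (hψ k).symm
    rw [h1]
    exact isAlgebraic_algebraMap (⟨ψ1 k, ⟨k, rfl⟩⟩ : ψ1.fieldRange)
  apply hinj
  rw [hzero, map_zero]

end Pool.Agent.Helper15.TD
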